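import Pool.Agent.H84.PrettyC

set_option autoImplicit false

namespace Pool.Agent.Results.MP_ff24f1_gt.Counter
open Pool.Agent.H84.Pretty

/-- A Tychonoff space with a cocompact pretty base whose Stone-Cech compactification is not
zero-dimensional (its clopen sets do not form a base). -/
theorem result : ∃ (X : Type) (_ : TopologicalSpace X), T35Space X ∧
    HasCocompactPrettyBase X ∧
    ¬ TopologicalSpace.IsTopologicalBasis {s : Set (StoneCech X) | IsClopen s} := by
  obtain ⟨X, t, h1, h2, f, hf, h3⟩ := exists_spaceC
  refine ⟨X, t, h1, h2, fun h => ?_⟩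
  have := totallySeparatedSpace_of_t0_of_basis_clopen h
  have hg := continuous_stoneCechExtend hf
  obtain ⟨C, hC, h4, h5⟩ := exists_clopen_of_closed_subset_open
    (isClosed_singleton.preimage hg : IsClosed (stoneCechExtend hf ⁻¹' {0}))
    (isOpen_compl_singleton.preimage hg : IsOpen (stoneCechExtend hf ⁻¹' {1}ᶜ))
    (fun x hx hx' => zero_ne_one ((Set.mem_singleton_iff.1 hx).symm.trans hx'))
  obtain ⟨x, hx, hx1⟩ := h3 _ (hC.preimage continuous_stoneCechUnit) fun x hx =>
    h4 (by simpa [stoneCechExtend_stoneCechUnit] using hx)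
  exact h5 hx (by simpa [stoneCechExtend_stoneCechUnit] using hx1)

end Pool.Agent.Results.MP_ff24f1_gt.Counter
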